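import Pool.Agent.helper6.KR.SpecA

namespace Pool.Agent.KR

theorem SB_ev {M : Type} (𝔄 : AStr M) (t : Tm) (σ : ℕ → Tm) (ρ : ℕ → M) :
    (t.subst σ).ev 𝔄 ρ = t.ev 𝔄 (fun i => (σ i).ev 𝔄 ρ) := by
  induction t with
  | var i => rfl
  | zero => rfl
  | succ t ih => simp only [Tm.subst, Tm.ev, ih]
  | op o s t ihs iht => simp only [Tm.subst, Tm.ev, ihs, iht]

theorem SB_shift {M : Type} (𝔄 : AStr M) (t : Tm) (x : M) (ρ : ℕ → M) :
    t.shift.ev 𝔄 (scons x ρ) = t.ev 𝔄 ρ := by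
  unfold Tm.shift
  rw [SB_ev]
  rfl

theorem SB_up {M : Type} (𝔄 : AStr M) (σ : ℕ → Tm) (ρ : ℕ → M) (x : M) :
    (fun i => (up σ i).ev 𝔄 (scons x ρ)) = scons x (fun i => (σ i).ev 𝔄 ρ) := by
  funext i
  cases i with
  | zero => rfl
  | succ i => exact SB_shift 𝔄 (σ i) x ρ

theorem SB_sat {M : Type} (𝔄 : AStr M) (A : Fm) : ∀ (σ : ℕ → Tm) (ρ : ℕ → M),
    (A.subst σ).sat 𝔄 ρ ↔ A.sat 𝔄 (fun i => (σ i).ev 𝔄 ρ) := by
  induction A with
  | eq s t => intro σ ρ; simp only [Fm.subst, Fm.sat, SB_ev]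
  | bot => intro σ ρ; exact Iff.rfl
  | bin c A B ihA ihB =>
    intro σ ρ
    have h1 := propext (ihA σ ρ)
    have h2 := propext (ihB σ ρ)
    simp only [Fm.subst, Fm.sat, h1, h2]
  | qu q A ih =>
    intro σ ρ
    have h : (fun x => (A.subst (up σ)).sat 𝔄 (scons x ρ)) =
        (fun x => A.sat 𝔄 (scons x (fun i => (σ i).ev 𝔄 ρ))) := by
      funext x
      rw [propext (ih (up σ) (scons x ρ)), SB_up]
    simp only [Fm.subst, Fm.sat, h]

theorem SB_evc {M : Type} (𝔄 : AStr M) (m : ℕ) (t : Tm) (ρ ρ' : ℕ → M) (hb : t.bd m)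
    (h : ∀ i < m, ρ i = ρ' i) : t.ev 𝔄 ρ = t.ev 𝔄 ρ' := by
  induction t with
  | var i => exact h i hb
  | zero => rfl
  | succ t ih => simp only [Tm.ev]; rw [ih hb]
  | op o s t ihs iht => simp only [Tm.ev]; rw [ihs hb.1, iht hb.2]

theorem SB_satc {M : Type} (𝔄 : AStr M) (A : Fm) : ∀ (m : ℕ) (ρ ρ' : ℕ → M), A.bd m →
    (∀ i < m, ρ i = ρ' i) → (A.sat 𝔄 ρ ↔ A.sat 𝔄 ρ') := by
  induction A with
  | eq s t =>
    intro m ρ ρ' hb h
    simp only [Fm.sat, SB_evc 𝔄 m s ρ ρ' hb.1 h, SB_evc 𝔄 m t ρ ρ' hb.2 h]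
  | bot => intro m ρ ρ' _ _; exact Iff.rfl
  | bin c A B ihA ihB =>
    intro m ρ ρ' hb h
    have h1 := propext (ihA m ρ ρ' hb.1 h)
    have h2 := propext (ihB m ρ ρ' hb.2 h)
    simp only [Fm.sat, h1, h2]
  | qu q A ih =>
    intro m ρ ρ' hb h
    have h1 : (fun x => A.sat 𝔄 (scons x ρ)) = (fun x => A.sat 𝔄 (scons x ρ')) := by
      funext x
      refine propext (ih (m + 1) _ _ hb ?_)
      intro i hi
      cases i with
      | zero => rfl
      | succ i => exact h i (Nat.lt_of_succ_lt_succ hi)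
    simp only [Fm.sat, h1]

theorem SB_tmono (t : Tm) {m m' : ℕ} (h : m ≤ m') (hb : t.bd m) : t.bd m' := by
  induction t with
  | var i => exact lt_of_lt_of_le hb h
  | zero => exact trivial
  | succ t ih => exact ih hb
  | op o s t ihs iht => exact ⟨ihs hb.1, iht hb.2⟩

theorem SB_fmono (A : Fm) : ∀ {m m' : ℕ}, m ≤ m' → A.bd m → A.bd m' := by
  induction A with
  | eq s t => intro m m' h hb; exact ⟨SB_tmono s h hb.1, SB_tmono t h hb.2⟩
  | bot => intro m m' _ _; exact trivial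
  | bin c A B ihA ihB => intro m m' h hb; exact ⟨ihA h hb.1, ihB h hb.2⟩
  | qu q A ih => intro m m' h hb; exact ih (Nat.succ_le_succ h) hb

theorem SB_tex (t : Tm) : ∃ m, t.bd m := by
  induction t with
  | var i => exact ⟨i + 1, Nat.lt_succ_self i⟩
  | zero => exact ⟨0, trivial⟩
  | succ t ih => exact ih
  | op o s t ihs iht =>
    obtain ⟨m, hm⟩ := ihs
    obtain ⟨n, hn⟩ := iht
    exact ⟨max m n, SB_tmono s (le_max_left _ _) hm, SB_tmono t (le_max_right _ _) hn⟩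

theorem SB_fex (A : Fm) : ∃ m, A.bd m := by
  induction A with
  | eq s t =>
    obtain ⟨m, hm⟩ := SB_tex s
    obtain ⟨n, hn⟩ := SB_tex t
    exact ⟨max m n, SB_tmono s (le_max_left _ _) hm, SB_tmono t (le_max_right _ _) hn⟩
  | bot => exact ⟨0, trivial⟩
  | bin c A B ihA ihB =>
    obtain ⟨m, hm⟩ := ihA
    obtain ⟨n, hn⟩ := ihB
    exact ⟨max m n, SB_fmono A (le_max_left _ _) hm, SB_fmono B (le_max_right _ _) hn⟩
  | qu q A ih =>
    obtain ⟨m, hm⟩ := ih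
    exact ⟨m, SB_fmono A (Nat.le_succ m) hm⟩

theorem SB : SB_stmt := by
  intro M 𝔄
  exact ⟨SB_ev 𝔄, SB_shift 𝔄, SB_sat 𝔄, SB_evc 𝔄, fun m A ρ ρ' => SB_satc 𝔄 A m ρ ρ', SB_fex⟩

end Pool.Agent.KR
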